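import Mathlib
import Pool.Agent.H891Z.Dif.Main

namespace Pool.Agent.Results.MP_5ac764_ag.LevelNotInjective

open AlgebraicGeometry CategoryTheory TopologicalSpace Opposite Pool.Agent.H891Z.Dif

/-- families of maps `O(V) → O(V)`, one for each open `V ⊆ U` -/
def Fam (X : Scheme.{0}) (U : X.Opens) : Type :=
  ∀ V : X.Opens, V ≤ U → Γ(X, V) → Γ(X, V)

/-- `φ` is an endomorphism of the abelian sheaf `O_U` that is linear over `q`-th powers -/
def IsOp (X : Scheme.{0}) (q : ℕ) (U : X.Opens) (φ : Fam X U) : Prop :=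
  (∀ V hV (f g : Γ(X, V)), φ V hV (f + g) = φ V hV f + φ V hV g) ∧
  (∀ V hV W hW (h : W ≤ V) (f : Γ(X, V)), res h (φ V hV f) = φ W hW (res h f)) ∧
  ∀ V hV (g f : Γ(X, V)), φ V hV (g ^ q * f) = g ^ q * φ V hV f

/-- abelian sheaves on `X` -/
abbrev AbSh (X : Scheme.{0}) : Type 1 := Sheaf (Opens.grothendieckTopology X) AddCommGrpCat.{0}

/-- `act` identifies the abelian sheaf `F` with the sheaf of endomorphisms of `O_X` linear over
`q`-th powers: on each open `U` it is an additive bijection of `F(U)` onto these endomorphisms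
of `O_U`, and it commutes with restriction -/
def IsLevel (X : Scheme.{0}) (q : ℕ) (F : AbSh X)
    (act : ∀ U : X.Opens, F.obj.obj (op U) → Fam X U) : Prop :=
  (∀ U, Function.Injective (act U)) ∧
  (∀ U (φ : Fam X U), (∃ s, act U s = φ) ↔ IsOp X q U φ) ∧
  (∀ U (s t : F.obj.obj (op U)) V hV f, act U (s + t) V hV f = act U s V hV f + act U t V hV f) ∧
  ∀ U U' (h : U' ≤ U) (s : F.obj.obj (op U)) V (hV : V ≤ U'),
    act U' ((F.obj.map (homOfLE h).op).hom s) V hV = act U s V (hV.trans h)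

/-- the map induced on `H ^ i` is injective -/
def InjOnH (X : Scheme.{0}) (F G : AbSh X) (ι : F ⟶ G) (i : ℕ) : Prop :=
  Function.Injective (Sheaf.H.map ι i)

/-- the map `H ^ i (X, D^(e)) → H ^ i (X, D^(e'))` induced by the natural inclusion is not
injective -/
def Fails (X : Scheme.{0}) (p e e' i : ℕ) : Prop :=
  ∃ (F G : AbSh X) (a : ∀ U : X.Opens, F.obj.obj (op U) → Fam X U)
    (b : ∀ U : X.Opens, G.obj.obj (op U) → Fam X U) (ι : F ⟶ G),
    IsLevel X (p ^ e) F a ∧ IsLevel X (p ^ e') G b ∧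
    (∀ U s, b U ((ι.hom.app (op U)).hom s) = a U s) ∧ ¬ InjOnH X F G ι i

lemma isLevel_D (X : Scheme.{0}) (q : ℕ) :
    IsLevel X q (D X q) (fun U (s : DSec X q U) V hV => s.1 ⟨V, hV⟩) := by
  refine ⟨?_, ?_, fun _ _ _ _ _ _ => rfl, fun _ _ _ _ _ _ => rfl⟩
  · intro U s t h
    apply Subtype.ext
    funext V
    ext f
    exact congrFun (congrFun (congrFun h V.1) V.2) f
  · intro U φ
    constructor
    · rintro ⟨s, rfl⟩
      exact ⟨fun V hV f g => map_add ((s : DSec X q U).1 ⟨V, hV⟩) f g,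
        fun V hV W hW h f => (s : DSec X q U).2.1 ⟨V, hV⟩ ⟨W, hW⟩ h f,
        fun V hV g f => (s : DSec X q U).2.2 ⟨V, hV⟩ g f⟩
    · rintro ⟨h1, h2, h3⟩
      exact ⟨(⟨fun V => AddMonoidHom.mk' (φ V.1 V.2) (h1 V.1 V.2),
        fun V W h f => h2 V.1 V.2 W.1 W.2 h f, fun V g f => h3 V.1 V.2 g f⟩ : DSec X q U), rfl⟩

lemma fails_of (X : Scheme.{0}) (p : ℕ)
    (h : ¬ Function.Injective (Sheaf.H.map (incl X p (e := 1) (e' := 2) one_le_two) 1)) :
    Fails X p 1 2 1 :=
  ⟨D X (p ^ 1), D X (p ^ 2), _, _, incl X p one_le_two, isLevel_D X _, isLevel_D X _,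
    fun _ _ => rfl, h⟩

/-- Over every perfect field `k` of characteristic `p > 0` there is a smooth projective globally
`F`-split variety `X = Proj R` (the Hirzebruch surface `F_p`) on which the map
`H¹(X, D^(1)) → H¹(X, D^(2))` induced by the natural inclusion is not injective. -/
theorem result (k : Type) [Field k] [PerfectField k] (p : ℕ) [Fact p.Prime] [CharP k p] :
    ∃ (R : Type) (_ : CommRing R) (_ : Algebra k R) (𝒜 : ℕ → Submodule k R)
      (_ : GradedAlgebra 𝒜),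
      (∃ s : Set R, s.Finite ∧ s ⊆ 𝒜 1 ∧ Algebra.adjoin k s = ⊤) ∧
      IsIntegral (Proj 𝒜) ∧
      Smooth (Proj.toSpecZero 𝒜 ≫ Spec.map (CommRingCat.ofHom (algebraMap k (𝒜 0)))) ∧
      GloballyFSplit (Proj 𝒜) p ∧ Fails (Proj 𝒜) p 1 2 1 := by
  refine ⟨AddMonoidAlgebra k (HS p), inferInstance, inferInstance,
    AddMonoidAlgebra.gradeBy k (hdeg p), inferInstance,
    ⟨_, deg_one_finite.image _, ?_, generated⟩, ?_, smooth_hirz, fsplit_hirz,
    fails_of _ _ not_injective_hirz⟩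
  · rintro _ ⟨m, hm, rfl⟩
    have hm' : hdeg p m = 1 := hm
    exact hm' ▸ AddMonoidAlgebra.single_mem_gradeBy _ _ _
  · exact isIntegral_proj (emb_injective (k := k) (HS p))
      (AddMonoidAlgebra.single_mem_gradeBy (hdeg p) (tu p) (1 : k)) one_pos (by simp)

end Pool.Agent.Results.MP_5ac764_ag.LevelNotInjective
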